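import Pool.Agent.Helper83.PT.St6
import Pool.Agent.Helper73.DC.St1

/-! Module A5 of the project PT. -/

set_option autoImplicit false

namespace Pool.Agent.Helper83.PT.N26

open Pool.Agent.Helper73.DC
open Finset
open scoped Classical

theorem dspace_mono {α : Type} {L : Set (List α)} {S S' : ℕ → ℕ} {C' : ℕ}
    (h : ∀ n, S n ≤ C' * S' n + C') (hL : L ∈ DSPACE (α := α) S) : L ∈ DSPACE (α := α) S' := by
  obtain ⟨M, C, hM⟩ := hL
  refine ⟨M, C * C' + C, fun w => ⟨(hM w).1, fun c hc t => ?_⟩⟩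
  refine ((hM w).2 c hc t).trans_le ?_
  show C * S w.length + C ≤ (C * C' + C) * S' w.length + (C * C' + C)
  have h1 := Nat.mul_le_mul_left C (h w.length)
  have h2 : C * (C' * S' w.length + C') = C * C' * S' w.length + C * C' := by ring
  have h3 : (C * C' + C) * S' w.length = C * C' * S' w.length + C * S' w.length := by ring
  rw [h3]
  omega

/-- The context of the value of level `R`. -/
theorem e2_ctx {α : Type} [Fintype α] {A R c0 : VF α} {q : ℕ → VF α} (hA : E2 A) (hR : E2 R)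
    (hc : E2 c0) (hq : ∀ j, E2 (q j)) :
    E2 (fun w v => A w (scons (v 0) (scons (R w v) (scons (c0 w v) (scons 0 (fun j => q j w v)))))) := by
  have := hA.subst (fun i => match i with
    | 0 => fun _ v => v 0
    | 1 => R
    | 2 => c0
    | 3 => fun _ _ => 0
    | i + 4 => q i) (by
      intro i
      match i with
      | 0 => exact E2.get 0
      | 1 => exact hR
      | 2 => exact hc
      | 3 => exact E2.zero
      | i + 4 => exact hq i)
  have e : (fun w v => A w (scons (v 0) (scons (R w v) (scons (c0 w v) (scons 0 (fun j => q j w v))))))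
      = (fun w v => A w (fun i => (match i with
    | 0 => fun _ v => v 0
    | 1 => R
    | 2 => c0
    | 3 => fun _ _ => 0
    | i + 4 => q i : VF α) w v)) := by
    funext w v
    congr 1
    funext i
    match i with
    | 0 => rfl
    | 1 => rfl
    | 2 => rfl
    | 3 => rfl
    | i + 4 => rfl
  rw [e]
  exact this

theorem mA5 : StP0 → StP10 → StM7 → StF6 → StF7 → StTOP → StA1 → StA2 → StA3 → StA4 → StL1 →
    StL2 → StL3 → StL4 → StL5 → StABS := by
  intro hP0 hP10 hM7 hF6 hF7 hTOP hA1 hA2 hA3 hA4 hL1 hL2 hL3 hL4 hL5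
  intro α _ L cl lf wt rs c0 e0 cc hcl hrs hf0 hc0 bcl brs bf0 bc0 hrank hL hmeas
  obtain ⟨P, O, hPO, hPO2⟩ := hM7
  obtain ⟨C, hC⟩ := hA1 (e0 + 1) (by omega)
  obtain ⟨S, d, hSd⟩ := hP0 (α := α)
  obtain ⟨hok, hsz, hdpt, hrle⟩ := hSd cl rs hcl hrs
  obtain ⟨A, hA, hAv⟩ := hF6 40 (fun w v => lf w (v 0)) (body cl rs) (by omega) hf0 hok
  obtain ⟨R0, hR0⟩ := hA2.1 cc
  have hmono : ∀ n : ℕ, (n + 2) ^ e0 ≤ (n + 2) ^ (e0 + 1) := fun n =>
    Nat.pow_le_pow_right (by omega) (by omega)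
  -- numbers for the prime
  have hq : ∀ n, 2 ≤ P (DD (e0 + 1) n * BB n) := fun n => (hPO2 _).1.two_le
  have hCn := fun n => hC n (P (DD (e0 + 1) n * BB n)) (hq n) (hPO2 _).2.2.1
  have hprm := hA3 (α := α) P O (e0 + 1) C (fun F hF => hPO F hF)
    (fun n => (hCn n).2.2.2.1.le) (fun n => (hCn n).2.1.le)
  set R : ℕ := 2 + R0 with hR
  set C2 : ℕ := 2 * (40 * C * (R + 1) + C + (2 + 3 * S + C * d) * (R + 1)) with hC2
  obtain ⟨C', hC'⟩ := hA2.2 C2
  -- the E2 function
  have hval : E2 (fun w v => A w (scons (v 0) (scons R (scons (c0 w)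
      (scons 0 (fun j => prm P O (e0 + 1) C w.length (v 0) j)))))) :=
    e2_ctx (R := fun _ _ => R) (c0 := fun w _ => c0 w)
      (q := fun j w v => prm P O (e0 + 1) C w.length (v 0) j) hA (E2.const R) hc0 hprm
  obtain ⟨hcmp, -, hite⟩ := hL2 (α := α)
  have hF : E2 (fun w v => if A w (scons (v 0) (scons R (scons (c0 w)
      (scons 0 (fun j => prm P O (e0 + 1) C w.length (v 0) j))))) = 1 then 1 else 0) := by
    have h := (hcmp _ _ hval (E2.const 1)).2.2
    unfold E2P at h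
    convert h
  have htop := hTOP _ (fun _ => C2) L hF (E2.const C2) ?_
  · exact dspace_mono (fun n => hC' n) htop
  intro w
  -- correctness
  obtain ⟨a1, a2, a3, a4, a5, a6, a7⟩ := hCn w.length
  set n := w.length with hn
  set N : ℕ := (n + 2) ^ C2 with hN
  set p : ℕ → ℕ := prm P O (e0 + 1) C n N with hp
  have hpow : ∀ K m, 2 * K ≤ C2 → m ≤ lam n * K → 2 ^ m ≤ N := by
    intro K m hk hm
    calc 2 ^ m ≤ 2 ^ (lam n * K) := Nat.pow_le_pow_right (by omega) hm
      _ = (2 ^ lam n) ^ K := pow_mul _ _ _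
      _ ≤ ((n + 2) ^ 2) ^ K := Nat.pow_le_pow_left a7 _
      _ = (n + 2) ^ (2 * K) := (pow_mul _ _ _).symm
      _ ≤ (n + 2) ^ C2 := Nat.pow_le_pow_right (by omega) hk
  have hl1 : 1 ≤ lam n := by
    unfold lam
    omega
  have hP2 := hPO2 (DD (e0 + 1) n * BB n)
  have p1N : P (DD (e0 + 1) n * BB n) ^ (3 * DD (e0 + 1) n) ≤ N := by
    refine a6.trans (hpow C _ (by omega) ?_)
    apply le_of_eq
    ring
  have hp1 : p 1 = P (DD (e0 + 1) n * BB n) ^ (3 * DD (e0 + 1) n) := by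
    show pw N (P (DD (e0 + 1) n * BB n)) (3 * DD (e0 + 1) n) = _
    unfold pw
    exact min_eq_left (by omega)
  have hBB : 2 ≤ BB n := by
    unfold BB
    rw [pow_succ]
    have : 1 ≤ 2 ^ lll n := Nat.one_le_two_pow
    omega
  have hDD : 1 ≤ DD (e0 + 1) n := by
    unfold DD
    exact Nat.le_add_left _ _
  have hBP : BB n ≤ P (DD (e0 + 1) n * BB n) := by
    have h1 : BB n ≤ DD (e0 + 1) n * BB n := Nat.le_mul_of_pos_left _ (by omega)
    have h2 := hP2.2.1
    omega
  have hPrm : Prm cl rs w p := by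
    refine ⟨fun x => (bcl w x).trans_le (hmono n), fun x r => (brs w x r).trans_le (hmono n), ?_, hBB, rfl,
      a1, a2, hP2.1, hBP, hP2.2.1, a3, hP2.2.2.2.2.1, hP2.2.2.2.2.2, hp1, rfl, rfl, a4,
      le_rfl, le_rfl, a5⟩
    show (n + 2) ^ (e0 + 1) + 1 < (n + 2) ^ (e0 + 1) + 2
    omega
  have hx : c0 w < p 3 := (bc0 w).trans_le (hmono n)
  have h35 : p 3 < p 5 := by
    have h1 : p 3 + 1 < p 2 := hPrm.hD
    have h2 : p 2 ≤ p 2 ^ 5 := Nat.le_self_pow (by omega) _
    have h3 := hPrm.hM0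
    omega
  have h50 : p 5 < p 0 := hPrm.hQM
  have hp00 : 0 < p 0 := by omega
  have hp1pos : 0 < p 1 := by
    rw [hp1]
    exact pow_pos (by have := hq n; omega) _
  have hX : p 0 = 2 ^ (C * lam n) := rfl
  have hN2 : (p 0) ^ (40 * (R + 1)) ≤ N := by
    rw [hX, ← pow_mul]
    refine hpow (40 * C * (R + 1)) _ (by omega) ?_
    apply le_of_eq
    ring
  have hrl : (body cl rs).rle w p (p 0) := by
    apply hrle w p (p 0) (by omega) ?_ (by omega) hPrm.hbM.le ?_
    · have h1 : p 4 < 2 ^ p 4 := Nat.lt_two_pow_self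
      have h2 : p 5 = p 13 ^ p 4 := hPrm.hQ
      have h3 : 2 ^ p 4 ≤ p 13 ^ p 4 := Nat.pow_le_pow_left hPrm.hB _
      omega
    · have h1 : p 12 ^ (p 11 + 3) ≤ p 0 := hPrm.hBM
      have h2 : p 12 ≤ p 12 ^ (p 11 + 3) := Nat.le_self_pow (by omega) _
      have h3 := hPrm.hBh
      omega
  have hTot : ∀ r ≤ R, Tot w p (body cl rs) r ≤ N := by
    intro r hr
    have h1 := hF7 w p (body cl rs) (p 0) (by omega) hrl r
    rw [hsz, hdpt] at h1
    have h2 : 3 * (3 * (S * p 0 ^ d)) ^ r ≤ N := by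
      have h3 : 3 * (S * p 0 ^ d) ≤ 2 ^ (3 * S + C * lam n * d) := by
        rw [hX, ← pow_mul, pow_add, ← mul_assoc]
        exact Nat.mul_le_mul_right _ Nat.lt_two_pow_self.le
      have h4 : (3 * (S * p 0 ^ d)) ^ r ≤ 2 ^ ((3 * S + C * lam n * d) * (R + 1)) := by
        rw [pow_mul]
        refine (Nat.pow_le_pow_left h3 r).trans (Nat.pow_le_pow_right ?_ (by omega))
        exact Nat.one_le_two_pow
      have h5 : 3 * (3 * (S * p 0 ^ d)) ^ r ≤ 2 ^ (2 + (3 * S + C * lam n * d) * (R + 1)) := by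
        rw [pow_add]
        exact Nat.mul_le_mul (by norm_num) h4
      refine h5.trans (hpow ((2 + 3 * S + C * d) * (R + 1)) _ (by omega) ?_)
      have h6 : 2 ≤ lam n * (2 * (R + 1)) := by nlinarith
      have h7 : 3 * S * (R + 1) ≤ lam n * (3 * S * (R + 1)) := Nat.le_mul_of_pos_left _ (by omega)
      calc 2 + (3 * S + C * lam n * d) * (R + 1)
          = 2 + 3 * S * (R + 1) + lam n * (C * d * (R + 1)) := by ring
        _ ≤ lam n * (2 * (R + 1)) + lam n * (3 * S * (R + 1)) + lam n * (C * d * (R + 1)) := by omega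
        _ = lam n * ((2 + 3 * S + C * d) * (R + 1)) := by ring
    omega
  have hv := hAv w p N R (c0 w) 0 hp00 (by omega) hp1pos (by rw [hp1]; exact p1N) hN2 hTot
  have h10 := hP10 cl rs w p (lf w) (fun w v => lf w (v 0)) hPrm
    (fun x => ((bf0 w x).trans_le (hmono n)).trans (by have := hPrm.hD; show p 3 < p 2; omega))
    (fun x => rfl) R (c0 w) 0 hx hp1pos
  rw [h10] at hv
  have hk2 : 2 ≤ 2 ^ eee n := by
    unfold eee
    rw [pow_succ]
    have : 1 ≤ 2 ^ (lll n / 2) := Nat.one_le_two_pow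
    omega
  have h4 := hA4 (lf w) (cl w) (rs w) (wt w) (p 3) (p 11) (2 ^ eee n) R0 (c0 w) (fun x r n => hrank w x r n)
    (fun x => ⟨hPrm.hcl x, fun r => hPrm.hrs x r⟩) hk2 le_rfl hx
    (fun m k hm => (hmeas w m k hm).trans_lt (hR0 n))
  have hgoal : (if A w (scons N (scons R (scons (c0 w) (scons 0 p)))) = 1 then 1 else 0) ≠ 0 ↔
      w ∈ L := by
    rw [hv, hL w, ← h4]
    have hRR : (SP (p 3) (p 11) (cl w) (rs w))^[R] (lf w) (c0 w) =
        (SP (p 3) (p 11) (cl w) (rs w))^[2 + R0] (lf w) (c0 w) := rfl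
    by_cases h : (SP (p 3) (p 11) (cl w) (rs w))^[2 + R0] (lf w) (c0 w) = 1
    · simp only [hRR, h, if_true, iff_true, ne_eq, one_ne_zero, not_false_eq_true]
    · simp only [hRR, h, if_false, iff_false, ne_eq, not_true_eq_false, not_false_eq_true]
  exact hgoal

end Pool.Agent.Helper83.PT.N26
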